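import Pool.Agent.Helper17.IA.StV

/-!
# IA module ABF (MP_953b28_co): a family of edge-disjoint absorbers
-/

set_option autoImplicit false

namespace Pool.Agent.Helper22.IA

open Finset Pool.Agent.Helper93.IA Pool.Agent.Helper17.IA

private abbrev Tr (n : ℕ) : Type :=
  Finset (Fin n × Fin n) × Finset (Fin n × Fin n) × Finset (Fin n × Fin n)

private structure Ok {n : ℕ} (e : ℕ) (A B C : Finset (Fin n × Fin n)) (F0 G : Finset (Fin n))
    (L : Tr n) (a b c : Finset (Fin n × Fin n)) : Prop where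
  main : a ⊆ A ∧ b ⊆ B ∧ c ⊆ C ∧ Dec a b c ∧ Dec (a ∪ L.1) (b ∪ L.2.1) (c ∪ L.2.2) ∧
    (∀ x ∈ a, ¬ (x.1 ∈ F0 ∧ x.2 ∈ F0)) ∧ (∀ x ∈ b, ¬ (x.1 ∈ F0 ∧ x.2 ∈ F0)) ∧
    (∀ x ∈ c, ¬ (x.1 ∈ F0 ∧ x.2 ∈ F0)) ∧ a.card + b.card + c.card ≤ 36 * e
  ga : ∀ x ∈ a, x.1 ∈ G ∧ x.2 ∈ G
  gb : ∀ x ∈ b, x.1 ∈ G ∧ x.2 ∈ G
  gc : ∀ x ∈ c, x.1 ∈ G ∧ x.2 ∈ G

private lemma Ok.mono {n e : ℕ} {A B C : Finset (Fin n × Fin n)} {F0 G G' : Finset (Fin n)}
    {L : Tr n} {a b c : Finset (Fin n × Fin n)} (h : Ok e A B C F0 G L a b c) (hG : G ⊆ G') :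
    Ok e A B C F0 G' L a b c :=
  ⟨h.main, fun x hx => ⟨hG (h.ga x hx).1, hG (h.ga x hx).2⟩,
    fun x hx => ⟨hG (h.gb x hx).1, hG (h.gb x hx).2⟩,
    fun x hx => ⟨hG (h.gc x hx).1, hG (h.gc x hx).2⟩⟩

private lemma not_both {n : ℕ} {N G F0 : Finset (Fin n)} (hN : Disjoint N G) (hF : F0 ⊆ G)
    {x : Fin n × Fin n} (h : x.1 ∈ N ∨ x.2 ∈ N) : ¬ (x.1 ∈ F0 ∧ x.2 ∈ F0) := by
  rintro ⟨h1, h2⟩
  rcases h with h | h
  · exact Finset.disjoint_left.mp hN h (hF h1)
  · exact Finset.disjoint_left.mp hN h (hF h2)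

private lemma disj_new {n : ℕ} {N G : Finset (Fin n)} (hN : Disjoint N G)
    {X Y : Finset (Fin n × Fin n)} (hX : ∀ x ∈ X, x.1 ∈ N ∨ x.2 ∈ N)
    (hY : ∀ x ∈ Y, x.1 ∈ G ∧ x.2 ∈ G) : Disjoint X Y := by
  rw [Finset.disjoint_left]
  intro x hx hy
  exact not_both hN (Finset.Subset.refl G) (hX x hx) (hY x hy)

private lemma step (hABS : StABS) (n k e : ℕ) (A B C : Finset (Fin n × Fin n))
    (F0 G : Finset (Fin n)) (L : Tr n)
    (hdeg : ∀ i, m1 A univ i ≤ k ∧ m2 A univ i ≤ k ∧ m1 B univ i ≤ k ∧ m2 B univ i ≤ k ∧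
      m1 C univ i ≤ k ∧ m2 C univ i ≤ k)
    (hL : Bal L.1 L.2.1 L.2.2 ∧ L.1.card ≤ e ∧ (∀ x ∈ L.1, x.1 ∈ F0 ∧ x.2 ∈ F0) ∧
      (∀ x ∈ L.2.1, x.1 ∈ F0 ∧ x.2 ∈ F0) ∧ ∀ x ∈ L.2.2, x.1 ∈ F0 ∧ x.2 ∈ F0)
    (hF : F0 ⊆ G) (hn : 4 * k + G.card + 12 * e + 2 ≤ n) :
    ∃ (a b c : Finset (Fin n × Fin n)) (N : Finset (Fin n)), Disjoint N G ∧
      N.card ≤ 11 * e + 1 ∧ Ok e A B C F0 (G ∪ N) L a b c ∧ (∀ x ∈ a, x.1 ∈ N ∨ x.2 ∈ N) ∧
      (∀ x ∈ b, x.1 ∈ N ∨ x.2 ∈ N) ∧ ∀ x ∈ c, x.1 ∈ N ∨ x.2 ∈ N := by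
  obtain ⟨hbal, hcard, h1, h2, h3⟩ := hL
  obtain ⟨a, b, c, N, ha, hb, hc, hN, hNc, ea, eb, ec, hsum, hdec, hdec2⟩ :=
    hABS n k A B C L.1 L.2.1 L.2.2 G hdeg hbal (fun x hx => ⟨hF (h1 x hx).1, hF (h1 x hx).2⟩)
      (fun x hx => ⟨hF (h2 x hx).1, hF (h2 x hx).2⟩)
      (fun x hx => ⟨hF (h3 x hx).1, hF (h3 x hx).2⟩) (by omega)
  refine ⟨a, b, c, N, hN, by omega, ⟨⟨ha, hb, hc, hdec, hdec2, ?_, ?_, ?_, by omega⟩, ?_, ?_, ?_⟩,
    fun x hx => (ea x hx).1, fun x hx => (eb x hx).1, fun x hx => (ec x hx).1⟩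
  · intro x hx; exact not_both hN hF (ea x hx).1
  · intro x hx; exact not_both hN hF (eb x hx).1
  · intro x hx; exact not_both hN hF (ec x hx).1
  · intro x hx; rw [Finset.union_comm]; exact (ea x hx).2
  · intro x hx; rw [Finset.union_comm]; exact (eb x hx).2
  · intro x hx; rw [Finset.union_comm]; exact (ec x hx).2

/-- IA module ABF -/
theorem hABF : StABF := by
  classical
  intro hABS n k e A B C F0 LL hdeg hLL hn
  have key : ∀ s : Finset (Tr n), s ⊆ LL → ∃ (XA XB XC : Tr n → Finset (Fin n × Fin n))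
      (G : Finset (Fin n)), F0 ⊆ G ∧ G.card ≤ F0.card + s.card * (11 * e + 1) ∧
      (∀ L ∈ s, Ok e A B C F0 G L (XA L) (XB L) (XC L)) ∧
      ∀ L ∈ s, ∀ L' ∈ s, L ≠ L' → Disjoint (XA L) (XA L') ∧ Disjoint (XB L) (XB L') ∧
        Disjoint (XC L) (XC L') := by
    intro s
    induction s using Finset.induction_on with
    | empty =>
      intro _
      refine ⟨fun _ => ∅, fun _ => ∅, fun _ => ∅, F0, Finset.Subset.refl _, by simp, ?_, ?_⟩
      · intro L hL; exact absurd hL (Finset.notMem_empty _)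
      · intro L hL; exact absurd hL (Finset.notMem_empty _)
    | insert L s hLs ih =>
      intro hs
      have hs' : s ⊆ LL := fun x hx => hs (Finset.mem_insert_of_mem hx)
      have hLm : L ∈ LL := hs (Finset.mem_insert_self _ _)
      obtain ⟨XA, XB, XC, G, hFG, hGc, hok, hdis⟩ := ih hs'
      have hcs : s.card ≤ LL.card := Finset.card_le_card hs'
      have hmul : s.card * (11 * e + 1) ≤ LL.card * (11 * e + 1) := Nat.mul_le_mul_right _ hcs
      obtain ⟨a, b, c, N, hN, hNc, hokL, ha, hb, hc⟩ :=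
        step hABS n k e A B C F0 G L hdeg (hLL L hLm) hFG (by omega)
      have hGG : G ⊆ G ∪ N := Finset.subset_union_left
      refine ⟨Function.update XA L a, Function.update XB L b, Function.update XC L c, G ∪ N,
        hFG.trans hGG, ?_, ?_, ?_⟩
      · have h1 := Finset.card_union_le G N
        rw [Finset.card_insert_of_notMem hLs, Nat.add_mul, Nat.one_mul]
        omega
      · intro L' hL'
        rcases Finset.mem_insert.mp hL' with h | h
        · rw [h, Function.update_self, Function.update_self, Function.update_self]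
          exact hokL
        · have hne : L' ≠ L := fun h2 => hLs (h2 ▸ h)
          rw [Function.update_of_ne hne, Function.update_of_ne hne, Function.update_of_ne hne]
          exact (hok L' h).mono hGG
      · have hnew : ∀ L' ∈ s, Disjoint a (XA L') ∧ Disjoint b (XB L') ∧ Disjoint c (XC L') :=
          fun L' h => ⟨disj_new hN ha (hok L' h).ga, disj_new hN hb (hok L' h).gb,
            disj_new hN hc (hok L' h).gc⟩
        intro L1 h1 L2 h2 hne
        rcases Finset.mem_insert.mp h1 with e1 | e1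
        · rcases Finset.mem_insert.mp h2 with e2 | e2
          · exact absurd (e1.trans e2.symm) hne
          · have hne2 : L2 ≠ L := fun h => hLs (h ▸ e2)
            rw [e1, Function.update_self, Function.update_self, Function.update_self,
              Function.update_of_ne hne2, Function.update_of_ne hne2, Function.update_of_ne hne2]
            exact hnew L2 e2
        · have hne1 : L1 ≠ L := fun h => hLs (h ▸ e1)
          rcases Finset.mem_insert.mp h2 with e2 | e2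
          · rw [e2, Function.update_self, Function.update_self, Function.update_self,
              Function.update_of_ne hne1, Function.update_of_ne hne1, Function.update_of_ne hne1]
            obtain ⟨p1, p2, p3⟩ := hnew L1 e1
            exact ⟨p1.symm, p2.symm, p3.symm⟩
          · have hne2 : L2 ≠ L := fun h => hLs (h ▸ e2)
            rw [Function.update_of_ne hne1, Function.update_of_ne hne1, Function.update_of_ne hne1,
              Function.update_of_ne hne2, Function.update_of_ne hne2, Function.update_of_ne hne2]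
            exact hdis L1 e1 L2 e2 hne
  obtain ⟨XA, XB, XC, G, -, -, hok, hdis⟩ := key LL (Finset.Subset.refl _)
  exact ⟨XA, XB, XC, fun L hL => (hok L hL).main, hdis⟩

end Pool.Agent.Helper22.IA
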